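import Pool.Agent.Helper23.MV.StC

/-!
# Project MV: MJF (major arcs formula)
-/

set_option autoImplicit false

namespace Pool.Agent.Helper26.MV

open Finset ArithmeticFunction MeasureTheory
open Pool.Agent.Helper23.MV
open Pool.Agent.Helper48.BK (ex th Sx Apx)

private theorem ex_add_mjf (s t : ℝ) : ex (s + t) = ex s * ex t := by
  unfold ex
  rw [← Complex.exp_add]
  congr 1
  push_cast
  ring

private theorem ex_cont_mjf (c : ℝ) : Continuous (fun β : ℝ => ex (c * β)) := by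
  unfold ex
  fun_prop

private theorem MfEf_mjf (o : Option (PCh × ℝ)) (c : PCh) (H : ℕ) (β : ℝ) :
    Mf o c H β + Ef o c H β =
      ∑ n ∈ Ioc (2 * H) (3 * H), ((th n : ℝ) : ℂ) * c.ev n * ex (n * β) := by
  unfold Mf Ef
  rw [← Finset.sum_add_distrib]
  refine Finset.sum_congr rfl (fun n _ => ?_)
  ring

private theorem MgEg_mjf (o : Option (PCh × ℝ)) (c : PCh) (N₀ H : ℕ) (β : ℝ) :
    Mg o c N₀ H β + Eg o c N₀ H β =
      ∑ m ∈ Icc 1 N₀, ((th m : ℝ) : ℂ) * c.ev m * ((vt N₀ H m : ℝ) : ℂ) * ex (m * β) := by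
  unfold Mg Eg
  rw [← Finset.sum_add_distrib]
  refine Finset.sum_congr rfl (fun n _ => ?_)
  ring

private theorem split_mjf (n q a : ℕ) (β : ℝ) :
    ex (n * ((a : ℝ) / q + β)) = ex ((n : ℝ) * a / q) * ex (n * β) := by
  rw [← ex_add_mjf]
  congr 1
  ring

private theorem cop_mjf (n q : ℕ) (hq : 1 ≤ q) (hn : q < n) (ht : th n ≠ 0) : Nat.Coprime n q := by
  have hp : n.Prime := by
    by_contra h
    apply ht
    unfold th
    rw [if_neg h]
  rw [Nat.Prime.coprime_iff_not_dvd hp]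
  intro h
  have := Nat.le_of_dvd hq h
  omega

private theorem Sf_mjf (hE : StExp) (o : Option (PCh × ℝ)) (H q a : ℕ) (β : ℝ) (hq : 1 ≤ q)
    (hqH : q ≤ H) (ha : Nat.Coprime a q) : SfH H ((a : ℝ) / q + β) =
      (1 / (Nat.totient q : ℂ)) * ∑ c ∈ (PS q).filter (fun c => c.r ∣ q),
        ta c q * c.ev a * (Mf o c H β + Ef o c H β) := by
  unfold SfH
  simp only [MfEf_mjf, Finset.mul_sum]
  rw [Finset.sum_comm]
  refine Finset.sum_congr rfl (fun n hn => ?_)
  rw [split_mjf]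
  by_cases ht : th n = 0
  · rw [ht]
    simp
  · have hn' := (Finset.mem_Ioc.1 hn).1
    rw [hE q n a hq (cop_mjf n q hq (by omega) ht) ha, Finset.mul_sum, Finset.sum_mul,
      Finset.mul_sum]
    refine Finset.sum_congr rfl (fun c _ => ?_)
    ring

private theorem vt_mjf (N₀ H m : ℕ) (hH : 1 ≤ H) (hm : m + 4 * H ≤ N₀) : vt N₀ H m = 0 := by
  unfold vt
  have hH' : (0 : ℝ) < H := by exact_mod_cast hH
  have hm' : (m : ℝ) + 4 * H ≤ N₀ := by exact_mod_cast hm
  have h1 : ((m : ℝ) - ((N₀ : ℝ) - 4 * H)) / H ≤ 0 := div_nonpos_of_nonpos_of_nonneg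
    (by linarith) hH'.le
  exact max_eq_left ((min_le_right _ _).trans ((min_le_left _ _).trans h1))

private theorem Sg_mjf (hE : StExp) (o : Option (PCh × ℝ)) (N₀ H q a : ℕ) (β : ℝ) (hq : 1 ≤ q)
    (hH : 1 ≤ H) (hqH : q ≤ H) (hN : 5 * H < N₀) (ha : Nat.Coprime a q) :
    SgH N₀ H ((a : ℝ) / q + β) =
      (1 / (Nat.totient q : ℂ)) * ∑ c ∈ (PS q).filter (fun c => c.r ∣ q),
        ta c q * c.ev a * (Mg o c N₀ H β + Eg o c N₀ H β) := by
  unfold SgH
  simp only [MgEg_mjf, Finset.mul_sum]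
  rw [Finset.sum_comm]
  refine Finset.sum_congr rfl (fun n hn => ?_)
  rw [split_mjf]
  by_cases ht : th n = 0
  · rw [ht]
    simp
  · by_cases hv : n + 4 * H ≤ N₀
    · rw [vt_mjf N₀ H n hH hv]
      simp
    · rw [hE q n a hq (cop_mjf n q hq (by omega) ht) ha, Finset.mul_sum, Finset.sum_mul,
        Finset.mul_sum]
      refine Finset.sum_congr rfl (fun c _ => ?_)
      ring

theorem hMjf : StFin → StExp → StMjf := by
  intro hFin hE o H N₀ N P B hH hP hPH hN hB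
  set J : PCh → PCh → ℝ → ℂ := fun c₁ c₂ β =>
    (Mf o c₁ H β + Ef o c₁ H β) * (Mg o c₂ N₀ H β + Eg o c₂ N₀ H β) * ex (-(N * β)) with hJ
  have hJc : ∀ c₁ c₂, Continuous (J c₁ c₂) := by
    intro c₁ c₂
    have h1 : J c₁ c₂ = fun β => (∑ n ∈ Ioc (2 * H) (3 * H), ((th n : ℝ) : ℂ) * c₁.ev n *
        ex (n * β)) * (∑ m ∈ Icc 1 N₀, ((th m : ℝ) : ℂ) * c₂.ev m * ((vt N₀ H m : ℝ) : ℂ) *
        ex (m * β)) * ex ((-(N : ℝ)) * β) := by
      funext β
      rw [hJ]
      simp only [MfEf_mjf, MgEg_mjf]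
      rw [neg_mul]
    rw [h1]
    refine Continuous.mul (Continuous.mul ?_ ?_) (ex_cont_mjf _)
    · exact continuous_finsetSum _ (fun n _ => continuous_const.mul (ex_cont_mjf _))
    · exact continuous_finsetSum _ (fun n _ => continuous_const.mul (ex_cont_mjf _))
  have hJi : ∀ c₁ c₂, IntervalIntegrable (J c₁ c₂) volume (-B) B := fun c₁ c₂ =>
    (hJc c₁ c₂).intervalIntegrable _ _
  -- one modulus
  have hone : ∀ q ∈ Icc 1 ⌊P⌋₊,
      ∑ a ∈ (range q).filter (fun a => Nat.Coprime a q),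
        ∫ β in (-B)..B, SfH H ((a : ℝ) / q + β) * SgH N₀ H ((a : ℝ) / q + β) *
          ex (-(N * ((a : ℝ) / q + β))) =
      ∑ c₁ ∈ PS P, ∑ c₂ ∈ PS P, (if c₁.r ∣ q ∧ c₂.r ∣ q then
        ta c₁ q * ta c₂ q * cq c₁ c₂ q N / (Nat.totient q : ℂ) ^ 2 else 0) *
          ∫ β in (-B)..B, J c₁ c₂ β := by
    intro q hq
    obtain ⟨hq1, hq2⟩ := Finset.mem_Icc.1 hq
    have hqP : (q : ℝ) ≤ P := (Nat.le_floor_iff (by linarith)).1 hq2
    have hqH : q ≤ H := by exact_mod_cast hqP.trans hPH.le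
    have hPS : (PS q).filter (fun c => c.r ∣ q) = (PS P).filter (fun c => c.r ∣ q) := by
      ext c
      rw [Finset.mem_filter, Finset.mem_filter, hFin.1, hFin.1]
      constructor
      · rintro ⟨h1, h2⟩
        exact ⟨h1.trans hqP, h2⟩
      · rintro ⟨h1, h2⟩
        exact ⟨by exact_mod_cast Nat.le_of_dvd hq1 h2, h2⟩
    have hint : ∀ a ∈ (range q).filter (fun a => Nat.Coprime a q),
        ∫ β in (-B)..B, SfH H ((a : ℝ) / q + β) * SgH N₀ H ((a : ℝ) / q + β) *
          ex (-(N * ((a : ℝ) / q + β))) =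
        ∑ c₁ ∈ (PS P).filter (fun c => c.r ∣ q), ∑ c₂ ∈ (PS P).filter (fun c => c.r ∣ q),
          (ta c₁ q * ta c₂ q / (Nat.totient q : ℂ) ^ 2 *
            (c₁.ev a * c₂.ev a * ex (-((a : ℝ) * N / q)))) * ∫ β in (-B)..B, J c₁ c₂ β := by
      intro a ha
      have hac : Nat.Coprime a q := (Finset.mem_filter.1 ha).2
      have e1 : ∀ β : ℝ, SfH H ((a : ℝ) / q + β) * SgH N₀ H ((a : ℝ) / q + β) *
          ex (-(N * ((a : ℝ) / q + β))) =
          ∑ c₁ ∈ (PS P).filter (fun c => c.r ∣ q), ∑ c₂ ∈ (PS P).filter (fun c => c.r ∣ q),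
          (ta c₁ q * ta c₂ q / (Nat.totient q : ℂ) ^ 2 *
            (c₁.ev a * c₂.ev a * ex (-((a : ℝ) * N / q)))) * J c₁ c₂ β := by
        intro β
        have e2 : ex (-(N * ((a : ℝ) / q + β))) = ex (-((a : ℝ) * N / q)) * ex (-(N * β)) := by
          rw [← ex_add_mjf]
          congr 1
          ring
        rw [Sf_mjf hE o H q a β hq1 hqH hac, Sg_mjf hE o N₀ H q a β hq1 hH hqH hN hac, e2, hPS,
          show ∀ x y z w u v : ℂ, (x * y) * (z * w) * (u * v) = (y * w) * (x * z * (u * v)) by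
            intros; ring, Finset.sum_mul_sum, Finset.sum_mul]
        refine Finset.sum_congr rfl (fun c₁ _ => ?_)
        rw [Finset.sum_mul]
        refine Finset.sum_congr rfl (fun c₂ _ => ?_)
        rw [hJ]
        ring
      simp only [e1]
      have hi2 : ∀ c₁ : PCh, IntervalIntegrable (fun β => ∑ c₂ ∈ (PS P).filter (fun c => c.r ∣ q),
          (ta c₁ q * ta c₂ q / (Nat.totient q : ℂ) ^ 2 *
            (c₁.ev a * c₂.ev a * ex (-((a : ℝ) * N / q)))) * J c₁ c₂ β) volume (-B) B := by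
        intro c₁
        refine (Continuous.intervalIntegrable ?_ _ _)
        exact continuous_finsetSum _ (fun c₂ _ => continuous_const.mul (hJc c₁ c₂))
      rw [intervalIntegral.integral_finsetSum (fun c₁ _ => hi2 c₁)]
      refine Finset.sum_congr rfl (fun c₁ _ => ?_)
      rw [intervalIntegral.integral_finsetSum (fun c₂ _ => (hJi c₁ c₂).const_mul _)]
      refine Finset.sum_congr rfl (fun c₂ _ => ?_)
      rw [intervalIntegral.integral_const_mul]
    rw [Finset.sum_congr rfl hint, Finset.sum_comm, Finset.sum_filter]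
    refine Finset.sum_congr rfl (fun c₁ _ => ?_)
    by_cases h1 : c₁.r ∣ q
    · rw [if_pos h1, Finset.sum_comm, Finset.sum_filter]
      refine Finset.sum_congr rfl (fun c₂ _ => ?_)
      by_cases h2 : c₂.r ∣ q
      · rw [if_pos h2, if_pos ⟨h1, h2⟩, ← Finset.sum_mul, ← Finset.mul_sum]
        congr 1
        unfold cq
        ring
      · rw [if_neg h2, if_neg (fun h => h2 h.2), zero_mul]
    · rw [if_neg h1]
      refine (Finset.sum_eq_zero (fun c₂ _ => ?_)).symm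
      rw [if_neg (fun h => h1 h.1), zero_mul]
  rw [Finset.sum_congr rfl hone, Finset.sum_comm]
  refine Finset.sum_congr rfl (fun c₁ _ => ?_)
  rw [Finset.sum_comm]
  refine Finset.sum_congr rfl (fun c₂ _ => ?_)
  rw [← Finset.sum_mul]
  congr 1
  unfold KK
  rw [Finset.sum_filter]

end Pool.Agent.Helper26.MV
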