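import Pool.Agent.Helper23.MV.StP

/-!
# Project MV: BDL (bad frequencies)
-/

set_option autoImplicit false

namespace Pool.Agent.Helper26.MV

open Finset ArithmeticFunction MeasureTheory
open Pool.Agent.Helper23.MV
open Pool.Agent.Helper15.AB (IsW)

private theorem ball_eq (a r : ℝ) : {t : ℝ | |a - t| ≤ r} = Set.Icc (a - r) (a + r) := by
  ext t
  simp only [Set.mem_ofPred_eq, Set.mem_Icc, abs_le]
  constructor
  · rintro ⟨h1, h2⟩
    exact ⟨by linarith, by linarith⟩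
  · rintro ⟨h1, h2⟩
    exact ⟨by linarith, by linarith⟩

private theorem Bd_eq (c : PCh) (η : ℝ) (X : ℕ) :
    Bd c η X = {t : ℝ | |(0 : ℝ) - t| ≤ (X : ℝ) ^ (η / 10)} ∪
      ⋃ ρ ∈ ZF c (2 * η) X, {t : ℝ | |ρ.im - t| ≤ (X : ℝ) ^ (η / 10)} := by
  ext t
  simp only [Bd, Set.mem_ofPred_eq, Set.mem_union, Set.mem_iUnion, zero_sub, abs_neg, exists_prop]

private theorem Bd_meas (c : PCh) (η : ℝ) (X : ℕ) : MeasurableSet (Bd c η X) := by
  rw [Bd_eq]
  refine MeasurableSet.union ?_ ?_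
  · rw [ball_eq]
    exact measurableSet_Icc
  · refine Finset.measurableSet_biUnion _ (fun ρ _ => ?_)
    rw [ball_eq]
    exact measurableSet_Icc

private theorem Bd_vol (c : PCh) (η : ℝ) (X : ℕ) :
    volume (Bd c η X) ≤ ENNReal.ofReal ((1 + ((ZF c (2 * η) X).card : ℝ)) *
      (2 * (X : ℝ) ^ (η / 10))) := by
  have hr : 0 ≤ (X : ℝ) ^ (η / 10) := Real.rpow_nonneg (Nat.cast_nonneg _) _
  have hv : ∀ a : ℝ, volume {t : ℝ | |a - t| ≤ (X : ℝ) ^ (η / 10)}
      = ENNReal.ofReal (2 * (X : ℝ) ^ (η / 10)) := by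
    intro a
    rw [ball_eq, Real.volume_Icc]
    congr 1
    ring
  rw [Bd_eq]
  refine (measure_union_le _ _).trans ?_
  rw [hv]
  have h2 : volume (⋃ ρ ∈ ZF c (2 * η) X, {t : ℝ | |ρ.im - t| ≤ (X : ℝ) ^ (η / 10)})
      ≤ ∑ ρ ∈ ZF c (2 * η) X, ENNReal.ofReal (2 * (X : ℝ) ^ (η / 10)) := by
    refine (measure_biUnion_finset_le _ _).trans (Finset.sum_le_sum (fun ρ _ => ?_))
    rw [hv]
  refine (add_le_add_right h2 _).trans ?_
  rw [Finset.sum_const, nsmul_eq_mul, add_mul, one_mul,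
    ENNReal.ofReal_add (by positivity) (by positivity),
    ENNReal.ofReal_mul (p := ((ZF c (2 * η) X).card : ℝ)) (by positivity), ENNReal.ofReal_natCast]

private theorem int_bound (C a : ℝ) (hC : 0 ≤ C) (A : Set ℝ) :
    ∫ t in A, C / (1 + (a - t) ^ 2) ≤ C * Real.pi := by
  have hi : Integrable (fun t : ℝ => C / (1 + (a - t) ^ 2)) := by
    have h := (integrable_inv_one_add_sq.comp_sub_left a).const_mul C
    simpa [div_eq_mul_inv] using h
  calc ∫ t in A, C / (1 + (a - t) ^ 2) ≤ ∫ t, C / (1 + (a - t) ^ 2) :=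
        setIntegral_le_integral hi (Filter.Eventually.of_forall (fun t => by positivity))
    _ = C * Real.pi := by
        have h := integral_sub_left_eq_self (fun t : ℝ => (1 + t ^ 2)⁻¹) volume a
        rw [integral_univ_inv_one_add_sq] at h
        simp only [div_eq_mul_inv]
        rw [integral_const_mul, h]

private theorem int_able (C a : ℝ) (A : Set ℝ) :
    IntegrableOn (fun t : ℝ => C / (1 + (a - t) ^ 2)) A := by
  have h := (integrable_inv_one_add_sq.comp_sub_left a).const_mul C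
  have h2 : Integrable (fun t : ℝ => C / (1 + (a - t) ^ 2)) := by
    simpa [div_eq_mul_inv] using h
  exact h2.integrableOn

open Classical in
private theorem Zex_mem {o : Option (PCh × ℝ)} {c : PCh} {η T : ℝ} {ρ : ℂ}
    (h : ρ ∈ Zex o c η T) : ρ ∈ ZF c η T := by
  unfold Zex at h
  exact (Finset.mem_filter.1 h).1

theorem hBdl : StFin → StNum → StWhb → StGbf → StBdl := by
  intro hFin hNum hWhb hGbf
  refine ⟨?_, ?_⟩
  · obtain ⟨η₀, hη0, hη1, h⟩ := hNum
    refine ⟨η₀, hη0, hη1, fun η hη hle => ?_⟩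
    obtain ⟨X1, hX1, hX⟩ := h η hη hle
    refine ⟨max 2 ⌈max X1 ((4 : ℝ) ^ (200 / η))⌉₊, le_max_left _ _, fun X c hX0 hc => ?_⟩
    have hX0' : max X1 ((4 : ℝ) ^ (200 / η)) ≤ (X : ℝ) :=
      (Nat.le_ceil _).trans (by exact_mod_cast (le_max_right _ _).trans hX0)
    have hXX1 : X1 ≤ (X : ℝ) := (le_max_left _ _).trans hX0'
    have hX4 : (4 : ℝ) ^ (200 / η) ≤ (X : ℝ) := (le_max_right _ _).trans hX0'
    have hXpos : (1 : ℝ) ≤ X := by linarith
    refine ⟨Bd_meas c η X, (Bd_vol c η X).trans (ENNReal.ofReal_le_ofReal ?_)⟩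
    have hcη : (c.r : ℝ) ≤ (X : ℝ) ^ η :=
      hc.trans (Real.rpow_le_rpow_of_exponent_le hXpos (by linarith))
    have h1 := hX X c hXX1 hcη
    have hcard : ((ZF c (2 * η) X).card : ℝ) ≤ (X : ℝ) ^ (η / 50) := by
      refine le_trans ?_ h1
      rw [Finset.card_eq_sum_ones]
      push_cast
      refine Finset.sum_le_sum (fun ρ hρ => ?_)
      have hz := (hFin.2.1 c (2 * η) X ρ (by linarith)).1 hρ
      have hm := (hFin.2.2 c ρ hz.1 (by linarith [hz.2.1])).2
      exact_mod_cast hm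
    have h4 : (4 : ℝ) ≤ (X : ℝ) ^ (η / 200) := by
      calc (4 : ℝ) = ((4 : ℝ) ^ (200 / η)) ^ (η / 200) := by
            rw [← Real.rpow_mul (by norm_num)]
            have : 200 / η * (η / 200) = 1 := by field_simp
            rw [this, Real.rpow_one]
        _ ≤ (X : ℝ) ^ (η / 200) := Real.rpow_le_rpow (by positivity) hX4 (by positivity)
    have h50 : (1 : ℝ) ≤ (X : ℝ) ^ (η / 50) := Real.one_le_rpow hXpos (by positivity)
    have hsplit : (X : ℝ) ^ (η / 8) = (X : ℝ) ^ (η / 200) * ((X : ℝ) ^ (η / 50) * (X : ℝ) ^ (η / 10)) := by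
      rw [← Real.rpow_add (by linarith), ← Real.rpow_add (by linarith)]
      congr 1
      ring
    rw [hsplit]
    have h10 : 0 ≤ (X : ℝ) ^ (η / 10) := Real.rpow_nonneg (by linarith) _
    calc (1 + ((ZF c (2 * η) X).card : ℝ)) * (2 * (X : ℝ) ^ (η / 10))
        ≤ ((X : ℝ) ^ (η / 50) + (X : ℝ) ^ (η / 50)) * (2 * (X : ℝ) ^ (η / 10)) := by
          refine mul_le_mul_of_nonneg_right (add_le_add h50 hcard) (by positivity)
      _ = 4 * ((X : ℝ) ^ (η / 50) * (X : ℝ) ^ (η / 10)) := by ring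
      _ ≤ _ := mul_le_mul_of_nonneg_right h4 (by positivity)
  · intro w hw
    obtain ⟨C, hC1, hC, -⟩ := hWhb w hw
    obtain ⟨η₁, hη1, hη2, h⟩ := hGbf w hw
    refine ⟨C * Real.pi, ?_, η₁, hη1, hη2, fun η hη hle => ?_⟩
    · nlinarith [Real.pi_gt_three]
    obtain ⟨X0, hX0, hX⟩ := h η hη hle
    refine ⟨X0, hX0, fun X o c A hXX0 ho hc hAm hA hvol => ?_⟩
    have hX2 : 2 ≤ X := hX0.trans hXX0
    have hXpos : (1 : ℝ) ≤ X := by exact_mod_cast (by omega : 1 ≤ X)
    have hAfin : volume A < ⊤ := hvol.trans_lt ENNReal.ofReal_lt_top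
    have hb : ∀ t ∈ A, ‖GO o c w X t‖ ≤ ∑ ρ ∈ Zex o c (2 * η) X,
        (mz c ρ : ℝ) * (X : ℝ) ^ (ρ.re - 1) * (C / (1 + (ρ.im - t) ^ 2)) +
          (X : ℝ) ^ (-(η / 5)) := by
      intro t ht
      have ht' := hA ht
      have habs : |t| ≤ (X : ℝ) ^ (3 / 4 : ℝ) := abs_le.2 ⟨ht'.1, ht'.2⟩
      have h1 := hX X o c t hXX0 ho hc habs
      have h2 : ‖∑ ρ ∈ Zex o c (2 * η) X, (mz c ρ : ℂ) * (X : ℂ) ^ (ρ - 1 - t * Complex.I) *
          wh w (ρ - 1 - t * Complex.I)‖ ≤ ∑ ρ ∈ Zex o c (2 * η) X,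
          (mz c ρ : ℝ) * (X : ℝ) ^ (ρ.re - 1) * (C / (1 + (ρ.im - t) ^ 2)) := by
        refine (norm_sum_le _ _).trans (Finset.sum_le_sum (fun ρ hρ => ?_))
        have hρ' : ρ ∈ ZF c (2 * η) X := Zex_mem hρ
        have hz := (hFin.2.1 c (2 * η) X ρ (by linarith)).1 hρ'
        have hre := (hFin.2.2 c ρ hz.1 (by linarith [hz.2.1])).1
        rw [norm_mul, norm_mul, Complex.norm_natCast]
        have e1 : ‖(X : ℂ) ^ (ρ - 1 - t * Complex.I)‖ = (X : ℝ) ^ (ρ.re - 1) := by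
          rw [Complex.norm_natCast_cpow_of_pos (by omega)]
          congr 1
          simp
        rw [e1]
        refine mul_le_mul_of_nonneg_left ?_ (by positivity)
        refine (hC _ ?_).trans ?_
        · simp only [Complex.sub_re, Complex.one_re, Complex.mul_re, Complex.ofReal_re,
            Complex.I_re, mul_zero, Complex.ofReal_im, Complex.I_im, mul_one, sub_self]
          linarith
        · refine div_le_div_of_nonneg_left (by linarith) (by positivity) ?_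
          have h3 : |(ρ - 1 - t * Complex.I).im| ≤ ‖ρ - 1 - t * Complex.I‖ :=
            Complex.abs_im_le_norm _
          have h4 : (ρ - 1 - t * Complex.I).im = ρ.im - t := by simp
          rw [h4] at h3
          have h5 : (ρ.im - t) ^ 2 ≤ ‖ρ - 1 - t * Complex.I‖ ^ 2 := by
            rw [← sq_abs (ρ.im - t)]
            exact pow_le_pow_left₀ (abs_nonneg _) h3 2
          linarith
      calc ‖GO o c w X t‖ = ‖(GO o c w X t + ∑ ρ ∈ Zex o c (2 * η) X, (mz c ρ : ℂ) *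
            (X : ℂ) ^ (ρ - 1 - t * Complex.I) * wh w (ρ - 1 - t * Complex.I)) -
            ∑ ρ ∈ Zex o c (2 * η) X, (mz c ρ : ℂ) * (X : ℂ) ^ (ρ - 1 - t * Complex.I) *
              wh w (ρ - 1 - t * Complex.I)‖ := by rw [add_sub_cancel_right]
        _ ≤ (X : ℝ) ^ (-(η / 5)) + _ := (norm_sub_le _ _).trans (add_le_add h1 h2)
        _ = _ := add_comm _ _
    have hconst : IntegrableOn (fun _ : ℝ => (X : ℝ) ^ (-(η / 5))) A :=
      integrableOn_const hAfin.ne (by simp)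
    have hint : IntegrableOn (fun t : ℝ => ∑ ρ ∈ Zex o c (2 * η) X,
        (mz c ρ : ℝ) * (X : ℝ) ^ (ρ.re - 1) * (C / (1 + (ρ.im - t) ^ 2)) +
          (X : ℝ) ^ (-(η / 5))) A := by
      refine Integrable.add ?_ ?_
      · exact integrable_finsetSum _ (fun ρ _ => (int_able C ρ.im A).const_mul _)
      · exact hconst
    have h1 : ∫ t in A, ‖GO o c w X t‖ ≤ ∫ t in A, (∑ ρ ∈ Zex o c (2 * η) X,
        (mz c ρ : ℝ) * (X : ℝ) ^ (ρ.re - 1) * (C / (1 + (ρ.im - t) ^ 2)) +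
          (X : ℝ) ^ (-(η / 5))) := by
      refine integral_mono_of_nonneg (Filter.Eventually.of_forall (fun t => norm_nonneg _)) hint ?_
      exact (ae_restrict_iff' hAm).2 (Filter.Eventually.of_forall hb)
    refine h1.trans ?_
    rw [integral_add (integrable_finsetSum _ (fun ρ _ => (int_able C ρ.im A).const_mul _))
      hconst,
      integral_finsetSum _ (fun ρ _ => (int_able C ρ.im A).const_mul _)]
    refine add_le_add ?_ ?_
    · unfold ZS
      rw [Finset.mul_sum]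
      refine Finset.sum_le_sum (fun ρ _ => ?_)
      rw [integral_const_mul]
      have h2 := int_bound C ρ.im (by linarith) A
      have h3 : 0 ≤ (mz c ρ : ℝ) * (X : ℝ) ^ (ρ.re - 1) := by positivity
      calc (mz c ρ : ℝ) * (X : ℝ) ^ (ρ.re - 1) * ∫ t in A, C / (1 + (ρ.im - t) ^ 2)
          ≤ (mz c ρ : ℝ) * (X : ℝ) ^ (ρ.re - 1) * (C * Real.pi) :=
            mul_le_mul_of_nonneg_left h2 h3
        _ = _ := by ring
    · rw [setIntegral_const, smul_eq_mul]
      have h2 : volume.real A ≤ (X : ℝ) ^ (η / 8) := by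
        unfold Measure.real
        exact ENNReal.toReal_le_of_le_ofReal (by positivity) hvol
      calc volume.real A * (X : ℝ) ^ (-(η / 5)) ≤ (X : ℝ) ^ (η / 8) * (X : ℝ) ^ (-(η / 5)) :=
            mul_le_mul_of_nonneg_right h2 (by positivity)
        _ = (X : ℝ) ^ (η / 8 + -(η / 5)) := by rw [Real.rpow_add (by linarith)]
        _ ≤ (X : ℝ) ^ (-(η / 20)) :=
            Real.rpow_le_rpow_of_exponent_le hXpos (by linarith)

end Pool.Agent.Helper26.MV
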